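import Mathlib
import Pool.Agent.Helper548.Axiom3Defs
import Pool.Agent.Helper548.Axiom3Hill
import Pool.Agent.Helper548.Axiom3Main
import Pool.Agent.Helper548.Axiom3Neg

/-!
Every Butler group of type 2 satisfies Axiom 3 with respect to separable subgroups if and only if
the continuum hypothesis holds.
-/

open Cardinal Pool.Agent.Helper548.Axiom3

universe u

namespace Pool.Agent.Results.MP_d611d8_al.ButlerTwoIffCH

/-- Every Butler group of type 2 (of arbitrary cardinality) satisfies Axiom 3 with respect to
separable subgroups if and only if the continuum hypothesis holds. -/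
theorem result :
    (∀ (G : Type u) [AddCommGroup G], IsButlerTwo G → SatisfiesAxiom3 G) ↔
      (𝔠 : Cardinal.{0}) = ℵ_ 1 := by
  constructor
  · intro h
    by_contra hCH
    obtain ⟨I, hI, X, _, hX⟩ := exists_counterexample.{u} hCH
    exact hX (h (grp X) (isButlerTwo_grp X))
  · intro hCH G _ hG
    refine satisfiesAxiom3_of_isButlerTwo ?_ hG
    have h1 := congrArg Cardinal.lift.{u, 0} hCH
    rwa [lift_continuum, lift_aleph, Ordinal.lift_one] at h1

end Pool.Agent.Results.MP_d611d8_al.ButlerTwoIffCH
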